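import Mathlib
import Pool.Agent.H73Z.Junta.Defs
import Pool.Agent.H73Z.Junta.Upper

/-! A sparse Boolean function whose total influence exceeds the edge-isoperimetric minimum by at
most `2 μ M` is `ε μ`-approximated by a junta on `C log(1/μ) 2^(C M / ε)` coordinates. -/

set_option autoImplicit false

namespace Pool.Agent.Results.MP_5036fd_co.AJuntaTheorem

open Pool.Agent.H73Z.JuntaDefs

theorem result : ∃ C : ℝ, 0 < C ∧ ∀ (M ε : ℝ), 0 < M → 0 < ε →
    ∀ (n : ℕ) (f : (Fin n → Bool) → Bool), 0 < mu f →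
      totalInfl f ≤ 2 * mu f * (Real.logb 2 (1 / mu f) + M) →
      ∃ (g : (Fin n → Bool) → Bool) (J : Finset (Fin n)), IsJuntaOn g J ∧
        disagree f g ≤ ε * mu f ∧
        (J.card : ℝ) ≤ C * Real.logb 2 (1 / mu f) * (2 : ℝ) ^ (C * M / ε) :=
  ⟨2 ^ 33, by positivity, fun M ε hM hε _ f hμ hI =>
    Pool.Agent.H73Z.Junta.upper M ε hM hε f hμ hI⟩

end Pool.Agent.Results.MP_5036fd_co.AJuntaTheorem
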