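import Mathlib
import Pool.Agent.H73Z.Junta.Defs
import Pool.Agent.H73Z.Junta.Lower

/-! The junta bound `C log(1/μ) 2^(c M / ε)` fails for every `c < 2` (in particular for `c = 1`),
for every `ε ∈ (0,1)` and every measure `μ = 2^(-t)`. -/

set_option autoImplicit false

namespace Pool.Agent.Results.MP_5036fd_co.BLiteralFalse

open Pool.Agent.H73Z.JuntaDefs

theorem result (c ε C : ℝ) (hc : c < 2) (hε : 0 < ε) (hε1 : ε < 1) (t : ℕ) (ht : 1 ≤ t) :
    ∃ (M : ℝ) (n : ℕ) (f : (Fin n → Bool) → Bool), 0 < M ∧ 1 ≤ n ∧ mu f = 1 / 2 ^ t ∧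
      totalInfl f ≤ 2 * mu f * (Real.logb 2 (1 / mu f) + M) ∧
      ∀ (g : (Fin n → Bool) → Bool) (J : Finset (Fin n)), IsJuntaOn g J →
        disagree f g ≤ ε * mu f →
        C * Real.logb 2 (1 / mu f) * (2 : ℝ) ^ (c * M / ε) < J.card :=
  Pool.Agent.H73Z.Junta.lower c ε C hc hε hε1 t ht

end Pool.Agent.Results.MP_5036fd_co.BLiteralFalse
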